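import Mathlib

/-!
# MP_d2d93c_nt: the equation `C^x + B^y = A^z` near the two degenerate directions

`A = f² - g²`, `B = 2fg`, `C = f² + g²`, `s = f + g`, `d = f - g`.

THEOREM (row FIN). For coprime `f > g ≥ 1` of opposite parity the equation has no solution in
positive integers if (a) `f ≠ g + 1` and `(f - g)^12 ≤ f + g`, or (b) `(10 g)^12 ≤ f`.

All statements below are `Prop`s; each row proves one of them from the ones named in its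
docstring. Deliver `Pool/Agent/HelperNN_SHP/X.lean`, namespace `Pool.Agent.SHP.HNN`.
-/

namespace Pool.Agent.SHP

open Finset

/-- Numerator of the Padé approximant `[p/q]` of `(1+t)^N`, as integer coefficients. -/
def cP (N p q j : ℕ) : ℤ := (Nat.choose (p + q - j) q * Nat.choose (N + q) j : ℕ)

/-- Denominator of the Padé approximant `[p/q]` of `(1+t)^N` (`N ≥ p + 1`). -/
def cQ (N p q j : ℕ) : ℤ := (-1) ^ j * (Nat.choose (p + q - j) p * Nat.choose (N - p - 1 + j) j : ℕ)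

/-- Remainder coefficients: `Q(t)(1+t)^N - P(t) = (-1)^q t^(p+q+1) ∑ j, cR j t^j`. -/
def cR (N p q j : ℕ) : ℤ := (Nat.choose (N + q) (p + q + 1 + j) * Nat.choose (q + j) q : ℕ)

open Polynomial in
/-- Row PAD (Mathlib only). The Padé identity
`Q (1+X)^N - P = (-1)^q X^(p+q+1) R`, `P = ∑_{j≤p} cP j X^j`, `Q = ∑_{j≤q} cQ j X^j`,
`R = ∑_{j<N-p} cR j X^j`.
Proof: induction on `q` for all `N ≥ p+1` (the case `q = 0` is the truncated binomial series).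
Apply the operator `D F = (p+q) F - X F'` to the identity for `(q-1, N+1)`: `D` multiplies the
coefficient of `X^i` by `p+q-i`. Then `D P_{q-1,N+1} = q P_{q,N}` because
`(p+q-j) C(p+q-1-j, q-1) = q C(p+q-j, q)`; on the remainder, `i = p+q+j`, factor `-j`, and
`j C(q-1+j, q-1) = q C(q+j-1, q)`; and `D (Q_{q-1,N+1} (1+X)^(N+1)) = q Q_{q,N} (1+X)^N` because
`q cQ(N,q,j) = (p+q-j) cQ(N+1,q-1,j) + (p+q-N-j) cQ(N+1,q-1,j-1)`. Divide by `q`. -/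
def PadStmt : Prop :=
  ∀ (N p q : ℕ), p + 1 ≤ N →
    (∑ j ∈ range (q + 1), C (cQ N p q j) * X ^ j) * (1 + X) ^ N
      - ∑ j ∈ range (p + 1), C (cP N p q j) * X ^ j
      = (-1) ^ q * X ^ (p + q + 1) * ∑ j ∈ range (N - p), C (cR N p q j) * (X : ℤ[X]) ^ j

/-- Row PIN (from PAD). Two consecutive Padé approximants `[n-1/n]`, `[n/n]` of `(1+t)^N` at
`t = b/M`, cleared of denominators by `M^n`: one of them is not killed by the linear form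
`Q V - P U`.
Nonvanishing: `P_{n-1} Q_n - P_n Q_{n-1}` is divisible by `X^(2n)` (PAD) and has degree `≤ 2n`, so
it is `c X^(2n)` with `c = - lead(P_n) lead(Q_{n-1}) = ± C(N+n,n) C(N,n) ≠ 0`; at `b/M ≠ 0` the
determinant is not zero.
Bounds: `C(p+q-j, q) ≤ 2^(p+q) ≤ 4^n`, `C(N-p-1+j, j) ≤ C(N+n, j)`, and for `ρ ≥ 1`
`∑_{j≤n} C(N+n,j) v^j ≤ ρ^n ∑_j C(N+n,j) (v/ρ)^j = ρ^n (1+v/ρ)^(N+n)`, `v = |b|/M`.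
Remainder: `|Q(1+t)^N - P| ≤ ∑_{i ≥ p+q+1} C(N+n,i) C(i-p-1,q) v^i`, `C(i-p-1,q) ≤ 2^i`, and
`(2v)^i = (2vρ)^i ρ^(-i) ≤ (2vρ)^(2n) ρ^(-i)` for `i ≥ 2n` (as `2vρ ≤ 1`). -/
def PinStmt : Prop :=
  ∀ (N n : ℕ), 1 ≤ n → n + 1 ≤ N → ∀ (M b : ℤ), 0 < M → b ≠ 0 →
    ∀ (U V : ℤ), (U ≠ 0 ∨ V ≠ 0) →
    ∃ P Q : ℤ, Q * V - P * U ≠ 0 ∧
      (∃ K : ℤ, Q * (M + b) ^ N - P * M ^ N = b ^ (2 * n) * K) ∧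
      (∀ ρ : ℝ, 1 ≤ ρ →
        |(P : ℝ)| ≤ 4 ^ n * (M : ℝ) ^ n * ρ ^ n * (1 + |(b : ℝ)| / (M * ρ)) ^ (N + n)) ∧
      (∀ ρ : ℝ, 1 ≤ ρ →
        |(Q : ℝ)| ≤ 4 ^ n * (M : ℝ) ^ n * ρ ^ n * (1 + |(b : ℝ)| / (M * ρ)) ^ (N + n)) ∧
      (∀ ρ : ℝ, 1 ≤ ρ → 2 * |(b : ℝ)| * ρ ≤ M →
        |(Q : ℝ) * (1 + (b : ℝ) / M) ^ N - P|
          ≤ (M : ℝ) ^ n * (2 * |(b : ℝ)| * ρ / M) ^ (2 * n) * (1 + 1 / ρ) ^ (N + n))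

/-- Row KEY (from PIN). The key proposition. `M = b1 + b2`, `Δ = |b1 - b2|`, `r = M^(1/12)`
(real), so `Δ ≤ r`, `81 ≤ r`, `U ≤ r^(6ω)`; `n = ω`.
Preliminaries: `V ≤ U` (as `b1^N + b2^n2 ≤ M^N`); `b1, b2` lie between `0.49 M` and `0.51 M`;
`M^N ≤ V M^N ≤ 2 U (0.51 M)^N` gives `1.96^N ≤ 2 r^(6ω)`, so
`N ≤ (log 2 + 6 ω log r)/log 1.9`, and with `log r ≤ 7 log 2 + r/81 - 1`... one gets
`(1+1/r)^(N+ω) ≤ exp((N+ω)/r) ≤ 2^ω`. (`log r ≤ log 81 + r/81 - 1`, `log 81 ≤ log 128`.)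
Case 1, `2ω ≤ n2`: PIN with `(M, -b2, U, V)`, `I = QV - PU ≠ 0`.
`b1^N I = V (Q b1^N - P M^N) + e P U b2^n2` is divisible by `b2^(2ω)`, coprime to `b1`, so
`(0.49 M)^(2ω) ≤ b2^(2ω) ≤ |I| ≤ 2 U 4^ω M^ω r^ω 2^ω` (`ρ = r`), i.e.
`(0.24 r^24)^ω ≤ 2 (8 r^19)^ω`: false.
Case 2, `n2 < 2ω`, so `k = N - n2 ≥ 2ω + 1`: PIN with `(M, b1 - b2, U, 2^N V)` (if the sign of
`b1 - b2` matters: `b = b1 - b2 ≠ 0`, `M + b = 2 b1`), `J = Q 2^N V - P U ≠ 0` an integer. Since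
`2^N V = U (1 + b/M)^N + e U 2^N b2^n2 / M^N`,
`|J| ≤ U |Q(1+b/M)^N - P| + |Q| U 2^N b2^n2 / M^N`. First term, `ρ = r`:
`≤ r^(6ω) r^(12ω) (2 r^2/r^12)^(2ω) 2^ω = (8/r^2)^ω < 1/4`. Second term, `|Q|` with `ρ = 1`:
`2 b2 ≤ M + Δ`, `2^N b2^n2/M^N ≤ (2/M)^k (1+Δ/M)^n2`, `(1+Δ/M)^(N+ω) ≤ 2^ω` (as `Δ/M ≤ 1/r`):
`≤ (4 M 2 r^6)^ω (2/M)^(2ω+1) 2^ω < 1/4`. So `|J| < 1`, contradiction. -/
def KeyStmt : Prop :=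
  ∀ (b1 b2 U V e : ℤ) (N n2 ω : ℕ), (e = 1 ∨ e = -1) → 0 < b1 → 0 < b2 → IsCoprime b1 b2 →
    0 < U → 0 < V → n2 < N → 1 ≤ ω → 4 * ω ≤ N →
    U * b1 ^ N + e * (U * b2 ^ n2) = V * (b1 + b2) ^ N →
    U ^ 2 ≤ (b1 + b2) ^ ω → |b1 - b2| ^ 12 ≤ b1 + b2 → b1 ≠ b2 → (81 : ℤ) ^ 12 ≤ b1 + b2 → False

/-- Row NER (from KEY). Near the diagonal. `s = f+g`, `d = f-g ≥ 9`, `M = s² = C + B`,
`C - B = d²`, `A = s d`.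
`x = y` is impossible (mod `d`: `C ≡ B`, so `d ∣ 2 B^x`, but `d` is odd and coprime to `B`).
Otherwise let `(b1, b2, N, n2) = (C, B, x, y)` if `x > y` and `(B, C, y, x)` if `y > x`:
`b1^N + b2^n2 = A^z`. `z < 2N`: else `s^(2N) d^z ≤ A^z ≤ b1^N + b2^N ≤ M^N = s^(2N)`.
Put `ω = w = 2N - z ≥ 1`, `U = s^w`, `V = d^z`, `e = 1`: `U (b1^N + b2^n2) = s^w A^z = V M^N`.
`U² = M^w`. `4 w ≤ N`: `V M^N ≥ U b1^N`, `3 b1 ≥ M`, so `s^w ≤ 3^N d^z`, hence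
`d^(13 w) ≤ (s d)^w ≤ 3^N d^(2N) ≤ d^(3N)`, `13 w ≤ 3 N`. `|b1-b2|^12 = d^24 ≤ s²`,
`81^12 = 9^24 ≤ d^24 ≤ s²`. -/
def NerStmt : Prop :=
  ∀ f g x y z : ℕ, 0 < g → g < f → Nat.Coprime f g → Odd (f + g) → 9 ≤ f - g →
    (f - g) ^ 12 ≤ f + g → 0 < x → 0 < y → 0 < z →
    (f ^ 2 + g ^ 2) ^ x + (2 * f * g) ^ y = (f ^ 2 - g ^ 2) ^ z → False

/-- Row FR2 (from KEY). Far from the diagonal, `C^x ≤ B^y`. KEY with `b1 = A`, `b2 = C`,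
`b1 + b2 = 2 f²`, `b2 - b1 = 2 g²`, `N = z`, `n2 = x`, `e = -1`, `u = ω = 2z - y`, `U = f^u`,
`V = 2^(y-z) g^y`: `U (A^z - C^x) = f^u B^y = 2^y g^y f^(2z) = V (2f²)^z`.
`x < z` since `C^x < A^z`, `A < C`. `y < 2z` since `f^y < B^y < A^z < f^(2z)`. `7 z ≤ 4 y`
(so `z ≤ y` and `4 u ≤ z`): else `A^(4y+1) ≤ A^(7z) ≤ (2 B^y)^7 = 128 (B^7)^y`, but `B^7 ≤ A^4`
(`f ≥ (10 g)^12`, `A ≥ f²/2`) and `A > 128`. `U² = f^(2u) ≤ (2f²)^u`,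
`(2g²)^12 ≤ 2 f²`, `81^12 ≤ 2 (10^12)² ≤ 2 f²`. -/
def Fr2Stmt : Prop :=
  ∀ f g x y z : ℕ, 0 < g → Nat.Coprime f g → Odd (f + g) → (10 * g) ^ 12 ≤ f →
    0 < x → 0 < y → 0 < z → (f ^ 2 + g ^ 2) ^ x ≤ (2 * f * g) ^ y →
    (f ^ 2 + g ^ 2) ^ x + (2 * f * g) ^ y = (f ^ 2 - g ^ 2) ^ z → False

/-- Row F1B (from PIN). Far from the diagonal, `B^y < C^x`: the `B`-adic Padé gives
`B^(4n) ≤ 2 A^(4κ) 8^n C^(2n)` for `n = ⌊y/4⌋`, `κ = z - x`. (For `n = 0` it is trivial.)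
Proof: `z > x` since `A^z > C^x > A^x`. PIN with `(N, n, M, b, U, V) = (x, n, C², -B², A^(2κ), 1)`,
`M + b = A²` (`n + 1 ≤ x`: `C < B²` gives `B^y < C^x < B^(2x)`, `y < 2x`).
`A^(2x) (Q - P A^(2κ)) = Q A^(2x) - P A^(2z)` and `A^(2z) = (C^x + B^y)² ≡ C^(2x) (mod B^y)`, so it
is `≡ B^(4n) K ≡ 0 (mod B^(4n))` (`4n ≤ y`), `gcd(A, B) = 1`. With `ρ = 1`:
`B^(4n) ≤ |I| ≤ 2 A^(2κ) 4^n C^(2n) (1+B²/C²)^(x+n)`, `(1+B²/C²)^x ≤ (C²/A²)^x ≤ A^(2κ)`,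
`(1+B²/C²)^n ≤ 2^n`. -/
def F1bStmt : Prop :=
  ∀ f g x y z : ℕ, 0 < g → Nat.Coprime f g → Odd (f + g) → (10 * g) ^ 12 ≤ f →
    0 < x → 0 < y → 0 < z → (2 * f * g) ^ y < (f ^ 2 + g ^ 2) ^ x →
    (f ^ 2 + g ^ 2) ^ x + (2 * f * g) ^ y = (f ^ 2 - g ^ 2) ^ z →
    x < z ∧ (2 * f * g) ^ (4 * (y / 4))
      ≤ 2 * (f ^ 2 - g ^ 2) ^ (4 * (z - x)) * 8 ^ (y / 4) * (f ^ 2 + g ^ 2) ^ (2 * (y / 4))

/-- Row F1R (from PIN). Far, the real Padé for `(1+τ)^x`, `τ = 2g²/A`, `C = A (1+τ)`: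
if `m ≥ 1`, `m + 1 ≤ x`, `20 g² x ≤ f m`, `κ = z - x ≥ 1`, `C^x < A^z`, then
`2 m + κ + y + 1 ≤ x` is impossible.
Proof: PIN with `(N, n, M, b, U, V) = (x, m, A, 2g², 1, A^κ)`: `J = Q A^κ - P ≠ 0`, and
`A^κ = (1+τ)^x + B^y/A^x`. `ρ = f/(20 g²)`: `(4 g² ρ)²/A = f²/(25 A) ≤ 1/24`, and
`(1+1/ρ)^(x+m) ≤ exp((x+m)/ρ) ≤ exp(m + m/ρ) ≤ 3^m` as `x/ρ ≤ m`. So the first term is
`≤ (3/24)^m ≤ 1/8`. Second: `|Q| ≤ 4^m A^m (1+τ)^(x+m) ≤ 8^m A^m A^κ` (`ρ = 1`,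
`(1+τ)^x = (C/A)^x < A^κ`, `(1+τ)^m ≤ 2^m`), `B < A`, `8 ≤ A`: second term
`≤ 8^m A^(m+κ+y-x) ≤ A^(2m+κ+y-x) ≤ 1/A`. So `|J| < 1`. -/
def F1rStmt : Prop :=
  ∀ f g x y z m : ℕ, 0 < g → (10 * g) ^ 12 ≤ f → 0 < x → 0 < y → x < z → 1 ≤ m → m + 1 ≤ x →
    20 * g ^ 2 * x ≤ f * m →
    (f ^ 2 + g ^ 2) ^ x + (2 * f * g) ^ y = (f ^ 2 - g ^ 2) ^ z →
    2 * m + (z - x) + y + 1 ≤ x → False

/-- Row FR1 (from F1B, F1R). Far, `B^y < C^x`. `κ = z - x ≥ 1`, `τ = 2g²/A`.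
`A^z < 2 C^x` gives `A^κ < 2 (1+τ)^x`, so `κ log A < x τ + log 2`; hence `x ≥ 10^15` say,
`κ ≤ x τ + 1`. F1B: `(B^4/(8 C²))^n ≤ 2 A^(4κ)`, `B^4 ≥ 1.9 · 8 C²` (`16 f⁴ g⁴ ≥ 15.2 C²`), so
`n log 1.9 ≤ log 2 + 4 κ log A`, `n ≤ 8 κ log A + 2`, `y ≤ 4 n + 3 ≤ 32 (x τ + 1) + 11`. Take
`m = ⌊20 g² x / f⌋ + 1`. Everything is tiny compared with `x`; apply F1R. -/
def Fr1Stmt : Prop :=
  ∀ f g x y z : ℕ, 0 < g → Nat.Coprime f g → Odd (f + g) → (10 * g) ^ 12 ≤ f →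
    0 < x → 0 < y → 0 < z → (2 * f * g) ^ y < (f ^ 2 + g ^ 2) ^ x →
    (f ^ 2 + g ^ 2) ^ x + (2 * f * g) ^ y = (f ^ 2 - g ^ 2) ^ z → False

end Pool.Agent.SHP
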